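import Mathlib

set_option autoImplicit false

namespace Pool.Agent.Results.MP_577ba1_lc.Counter

/-- Well-quasi-order condition: every infinite sequence has a good pair. -/
def Good {A : Type} (le : List A → List A → Prop) : Prop :=
  ∀ x : ℕ → List A, ∃ i j : ℕ, i < j ∧ le (x i) (x j)

/-- A wqo: reflexive, transitive, every sequence has a good pair. -/
def IsWqo {A : Type} (le : List A → List A → Prop) : Prop :=
  (∀ x, le x x) ∧ (∀ x y z, le x y → le y z → le x z) ∧ Good le

def Multiplicative {A : Type} (le : List A → List A → Prop) : Prop :=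
  ∀ x y u v, le x y → le (u ++ x ++ v) (u ++ y ++ v)

def LengthIncreasing {A : Type} (le : List A → List A → Prop) : Prop :=
  ∀ x y, le x y → x.length ≤ y.length

/-- One rewriting step of the production system `P`. -/
def Step {A : Type} (P : Finset (List A × List A)) (x y : List A) : Prop :=
  ∃ r ∈ P, ∃ s t : List A, x = s ++ r.1 ++ t ∧ y = s ++ r.2 ++ t

/-- The derivation relation. -/
def Derives {A : Type} (P : Finset (List A × List A)) : List A → List A → Prop :=
  Relation.ReflTransGen (Step P)

/-- The counterexample order on words over `Bool`. -/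
def cle (x y : List Bool) : Prop :=
  x.Sublist y ∧ (x.count true = y.count true ∨ 2 ≤ x.count true)

def ok (K : ℕ) : ℕ → List Bool → Prop
  | _, [] => True
  | d, false :: w => ok K (d + 1) w
  | d, true :: w => K ≤ d ∧ ok K 0 w

lemma ok_mono (K : ℕ) : ∀ (w : List Bool) (d d' : ℕ), d ≤ d' → ok K d w → ok K d' w
  | [], _, _, _, _ => trivial
  | false :: w, d, d', h, hw => ok_mono K w (d + 1) (d' + 1) (by omega) hw
  | true :: _, _, _, h, hw => ⟨le_trans hw.1 h, hw.2⟩

lemma ok_sub (K : ℕ) (t : List Bool) {x y : List Bool} (h : x.Sublist y) :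
    x.count true = y.count true → ∀ d d', d ≤ d' → ok K d (x ++ t) → ok K d' (y ++ t) := by
  induction h with
  | slnil => intro _ d d' hd hw; exact ok_mono K _ d d' hd hw
  | @cons l1 l2 a h ih =>
    intro hc d d' hd hw
    cases a with
    | true =>
      have := h.count_le true
      simp at hc
      omega
    | false =>
      have hc' : l1.count true = l2.count true := by simpa using hc
      exact ih hc' d (d' + 1) (by omega) hw
  | @cons_cons l1 l2 a h ih =>
    intro hc d d' hd hw
    cases a with
    | true =>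
      have hc' : l1.count true = l2.count true := by simpa using hc
      exact ⟨le_trans hw.1 hd, ih hc' 0 0 le_rfl hw.2⟩
    | false =>
      have hc' : l1.count true = l2.count true := by simpa using hc
      exact ih hc' (d + 1) (d' + 1) (by omega) hw

lemma ok_left (K : ℕ) (X Y : List Bool) (h : ∀ d, ok K d X → ok K d Y) :
    ∀ (s : List Bool) (d : ℕ), ok K d (s ++ X) → ok K d (s ++ Y)
  | [], d, hw => h d hw
  | false :: s, d, hw => ok_left K X Y h s (d + 1) hw
  | true :: s, _, hw => ⟨hw.1, ok_left K X Y h s 0 hw.2⟩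

lemma ok_drop (K : ℕ) (X : List Bool) :
    ∀ (s : List Bool) (d : ℕ), ok K d (s ++ X) → ∃ d', ok K d' X
  | [], d, hw => ⟨d, hw⟩
  | false :: s, d, hw => ok_drop K X s (d + 1) hw
  | true :: s, _, hw => ok_drop K X s 0 hw.2

lemma ok_zero (K : ℕ) (t : List Bool) :
    ∀ (u : List Bool) (d : ℕ), ok K d (u ++ t) → d + u.length ≤ K → u.count true = 0
  | [], _, _, _ => rfl
  | false :: u, d, hw, hl => by
      have := ok_zero K t u (d + 1) hw (by simp at hl; omega)
      simpa using this
  | true :: u, d, hw, hl => by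
      have := hw.1
      simp at hl
      omega

lemma ok_one (K : ℕ) (t : List Bool) :
    ∀ (u : List Bool) (d : ℕ), ok K d (u ++ t) → u.length ≤ K → u.count true ≤ 1
  | [], _, _, _ => by simp
  | false :: u, d, hw, hl => by
      have := ok_one K t u (d + 1) hw (by simp at hl; omega)
      simpa using this
  | true :: u, d, hw, hl => by
      have := ok_zero K t u 0 hw.2 (by simp at hl; omega)
      simp [this]

lemma ok_rep (K : ℕ) (w : List Bool) :
    ∀ (n d : ℕ), ok K (d + n) w → ok K d (List.replicate n false ++ w)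
  | 0, _, hw => hw
  | n + 1, d, hw => by
      have := ok_rep K w n (d + 1) (by rwa [show d + 1 + n = d + (n + 1) by omega])
      exact this

def W (K : ℕ) : ℕ → List Bool
  | 0 => []
  | m + 1 => List.replicate K false ++ true :: W K m

lemma ok_W (K : ℕ) : ∀ m, ok K 0 (W K m)
  | 0 => trivial
  | m + 1 => ok_rep K _ K 0 ⟨by omega, ok_W K m⟩

lemma count_W (K : ℕ) : ∀ m, (W K m).count true = m
  | 0 => rfl
  | m + 1 => by
      simp [W, List.count_replicate, count_W K m]

lemma cle_good : Good cle := by
  intro x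
  have hfin : (Set.univ : Set Bool).PartiallyWellOrderedOn (· = ·) :=
    Set.finite_univ.partiallyWellOrderedOn
  have hH := Set.PartiallyWellOrderedOn.partiallyWellOrderedOn_sublistForall₂ (· = ·) hfin
  haveI : IsPreorder (List Bool) (List.SublistForall₂ (fun a b : Bool => a = b)) := {}
  obtain ⟨g, hg⟩ := hH.exists_monotone_subseq (f := x) (fun n => by simp)
  have hs : ∀ m n, m ≤ n → (x (g m)).Sublist (x (g n)) := by
    intro m n hmn
    obtain ⟨l, h1, h2⟩ := List.sublistForall₂_iff.1 (hg m n hmn)
    rw [List.forall₂_eq_eq_eq] at h1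
    rw [h1]; exact h2
  have h01 := hs 0 1 (by omega)
  have h12 := hs 1 2 (by omega)
  have h23 := hs 2 3 (by omega)
  have c01 := h01.count_le true
  have c12 := h12.count_le true
  by_cases e1 : (x (g 0)).count true = (x (g 1)).count true
  · exact ⟨g 0, g 1, g.strictMono (by omega), h01, Or.inl e1⟩
  by_cases e2 : (x (g 1)).count true = (x (g 2)).count true
  · exact ⟨g 1, g 2, g.strictMono (by omega), h12, Or.inl e2⟩
  · exact ⟨g 2, g 3, g.strictMono (by omega), h23, Or.inr (by omega)⟩

lemma cle_wqo : IsWqo cle := by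
  refine ⟨fun x => ⟨List.Sublist.refl x, Or.inl rfl⟩, ?_, cle_good⟩
  rintro x y z ⟨h1, h2⟩ ⟨h3, h4⟩
  refine ⟨h1.trans h3, ?_⟩
  omega

lemma cle_mult : Multiplicative cle := by
  rintro x y u v ⟨h1, h2⟩
  refine ⟨((List.Sublist.refl u).append h1).append (List.Sublist.refl v), ?_⟩
  simp only [List.count_append]
  omega

lemma not_good (P : Finset (List Bool × List Bool)) (hP : ∀ r ∈ P, cle r.1 r.2) :
    ¬ Good (Derives P) := by
  intro hg
  set K := P.sup (fun r => r.1.length) with hK
  have hstep : ∀ x y, Step P x y → ok K 0 x → ok K 0 y ∧ x.count true = y.count true := by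
    rintro x y ⟨r, hr, s, t, rfl, rfl⟩ hx
    have hl : r.1.length ≤ K := Finset.le_sup (f := fun r : List Bool × List Bool => r.1.length) hr
    rw [List.append_assoc] at hx
    obtain ⟨d', hd'⟩ := ok_drop K _ s 0 hx
    have h1 := ok_one K t r.1 d' hd' hl
    obtain ⟨h2, h3⟩ := hP r hr
    have hc : r.1.count true = r.2.count true := by omega
    refine ⟨?_, ?_⟩
    · rw [List.append_assoc]
      exact ok_left K _ _ (fun d h => ok_sub K t h2 hc d d le_rfl h) s 0 hx
    · simp only [List.count_append]; omega
  have hder : ∀ x y, Derives P x y → ok K 0 x → ok K 0 y ∧ x.count true = y.count true := by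
    intro x y h hx
    induction h with
    | refl => exact ⟨hx, rfl⟩
    | tail _ h2 ih =>
      obtain ⟨a, b⟩ := hstep _ _ h2 ih.1
      exact ⟨a, ih.2.trans b⟩
  obtain ⟨i, j, hij, h⟩ := hg (W K)
  have := (hder _ _ h (ok_W K i)).2
  rw [count_W, count_W] at this
  omega

theorem result :
    ¬ ∀ (A : Type) [Fintype A] (le : List A → List A → Prop),
      IsWqo le → Multiplicative le → LengthIncreasing le →
      ∃ P : Finset (List A × List A),
        (∀ r ∈ P, r.1 ≠ [] ∧ r.2 ≠ [] ∧ le r.1 r.2) ∧ IsWqo (Derives P) := by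
  intro h
  obtain ⟨P, hP, hw⟩ := h Bool cle cle_wqo cle_mult (fun x y hxy => hxy.1.length_le)
  exact not_good P (fun r hr => (hP r hr).2.2) hw.2.2

end Pool.Agent.Results.MP_577ba1_lc.Counter
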